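import Mathlib
import Pool.Agent.H89.KW.Atv

set_option autoImplicit false

namespace Pool.Agent.Results.MP_5ad9df_co.ChromaticChoosable

/-- The uniform inflation `G_(b)`: every vertex becomes a clique with `b` vertices. -/
def Infl {V : Type} (G : SimpleGraph V) (b : ℕ) : SimpleGraph (V × Fin b) where
  Adj x y := G.Adj x.1 y.1 ∨ (x.1 = y.1 ∧ x.2 ≠ y.2)
  symm := ⟨fun _ _ h => h.elim (fun h => Or.inl h.symm) fun h => Or.inr ⟨h.1.symm, h.2.symm⟩⟩
  loopless := ⟨fun x h => h.elim (fun h => G.loopless.irrefl _ h) fun h => h.2 rfl⟩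

/-- `H` is `k`-choosable. -/
def Choosable {W : Type} (H : SimpleGraph W) (k : ℕ) : Prop :=
  ∀ L : W → Finset ℕ, (∀ w, (L w).card = k) →
    ∃ f : W → ℕ, (∀ w, f w ∈ L w) ∧ ∀ u v, H.Adj u v → f u ≠ f v

/-- Every finite graph has a number `m` such that the inflations `G_(mt)` are chromatic-choosable
for all large `t`. -/
theorem result : ∀ (V : Type) [Fintype V] (G : SimpleGraph V), ∃ m : ℕ, 0 < m ∧ ∃ t₀ : ℕ,
    ∀ t, t₀ ≤ t → ∃ a : ℕ, Choosable (Infl G (m * t)) a ∧
      (Infl G (m * t)).chromaticNumber = a := by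
  classical
  intro V _ G
  obtain ⟨m, hm, t₀, h⟩ := Pool.Agent.H89.KW.infl_main G
  refine ⟨m, hm, t₀, fun t ht => ?_⟩
  obtain ⟨a, h1, h2⟩ := h t ht
  refine ⟨a, h1, ?_⟩
  obtain ⟨f, hf1, hf2⟩ := h1 (fun _ => Finset.range a) (fun _ => Finset.card_range a)
  have hcol : (Infl G (m * t)).Colorable a := by
    refine ⟨SimpleGraph.Coloring.mk (fun x => (⟨f x, Finset.mem_range.mp (hf1 x)⟩ : Fin a)) ?_⟩
    intro x y hxy heq
    exact hf2 x y hxy (congrArg Fin.val heq)
  refine le_antisymm hcol.chromaticNumber_le ?_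
  refine SimpleGraph.le_chromaticNumber_iff_colorable.mpr fun c hc => ?_
  exact h2 c hc

end Pool.Agent.Results.MP_5ad9df_co.ChromaticChoosable
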