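import Mathlib
import Pool.Agent.H89.KW.Main

set_option autoImplicit false

namespace Pool.Agent.Results.MP_5ad9df_co.LargeB

/-- `G` is `(a:b)`-choosable. -/
def Choosable {V : Type} (G : SimpleGraph V) (a b : ℕ) : Prop :=
  ∀ L : V → Finset ℕ, (∀ v, (L v).card = a) →
    ∃ C : V → Finset ℕ, (∀ v, C v ⊆ L v ∧ (C v).card = b) ∧
      ∀ u v, G.Adj u v → Disjoint (C u) (C v)

/-- The uniform inflation of `G` with cliques of size `b` is `a`-choosable. -/
def InflationChoosable {V : Type} (G : SimpleGraph V) (a b : ℕ) : Prop :=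
  ∀ L : V × Fin b → Finset ℕ, (∀ x, (L x).card = a) →
    ∃ f : V × Fin b → ℕ, (∀ x, f x ∈ L x) ∧
      ∀ x y, (G.Adj x.1 y.1 ∨ (x.1 = y.1 ∧ x.2 ≠ y.2)) → f x ≠ f y

theorem Choosable.comap {V V' : Type} (e : V ≃ V') {G' : SimpleGraph V'} {a b : ℕ}
    (h : Choosable (G'.comap e) a b) : Choosable G' a b := by
  intro L hL
  obtain ⟨C, hC1, hC2⟩ := h (fun v => L (e v)) fun v => hL _
  refine ⟨fun v => C (e.symm v), fun v => ?_, fun u v huv => hC2 _ _ ?_⟩
  · have := hC1 (e.symm v)
    simpa using this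
  · simpa using huv

theorem InflationChoosable.of_comap {V V' : Type} (e : V ≃ V') {G' : SimpleGraph V'} {a b : ℕ}
    (h : InflationChoosable G' a b) : InflationChoosable (G'.comap e) a b := by
  intro L hL
  obtain ⟨f, hf1, hf2⟩ := h (fun x => L (e.symm x.1, x.2)) fun x => hL _
  refine ⟨fun x => f (e x.1, x.2), fun x => ?_, fun x y hxy => hf2 _ _ ?_⟩
  · have := hf1 (e x.1, x.2)
    simpa using this
  · rcases hxy with h | ⟨h, h'⟩
    · exact Or.inl (by simpa using h)
    · exact Or.inr ⟨by simp [h], h'⟩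

/-- The Kostochka-Woodall equivalence holds for all graphs with `n` vertices, all `a`, and all
`b ≥ b₀(n)`. -/
theorem result : ∀ n : ℕ, ∃ b₀ : ℕ, ∀ (V : Type) [Fintype V], Fintype.card V = n →
    ∀ (G : SimpleGraph V) (a b : ℕ), b₀ ≤ b → (Choosable G a b ↔ InflationChoosable G a b) := by
  classical
  intro n
  choose f hf using fun G : SimpleGraph (Fin n) => Pool.Agent.H89.KW.main_large G
  refine ⟨Finset.univ.sup f, fun V _ hV G a b hb => ⟨fun h => ?_, fun h L hL =>
    Pool.Agent.H89.KW.easy G a b h L hL⟩⟩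
  let e : V ≃ Fin n := Fintype.equivFinOfCardEq hV
  have hG : (G.comap e.symm).comap e = G := by
    ext u v
    simp
  have h1 : Choosable (G.comap e.symm) a b := Choosable.comap e (by rw [hG]; exact h)
  have h2 : InflationChoosable (G.comap e.symm) a b :=
    hf (G.comap e.symm) b ((Finset.le_sup (Finset.mem_univ _)).trans hb) a h1
  have h3 := InflationChoosable.of_comap e h2
  rwa [hG] at h3

end Pool.Agent.Results.MP_5ad9df_co.LargeB
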